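import Pool.Agent.K.MP_3fd745_al.C6

namespace Pool.Agent.Results.MP_3fd745_al.KrullDim

theorem result :
    ∀ (D : Type) [DivisionRing D] (N : Subgroup Dˣ),
      (∃ (k : ℕ) (H : ℕ → Subgroup Dˣ),
          H 0 = N ∧ H k = ⊤ ∧
          ∀ i, i < k → H i ≤ H (i + 1) ∧ ((H i).subgroupOf (H (i + 1))).Normal) →
      (∀ x ∈ N, ∃ n : ℕ, 0 < n ∧ ((x : Dˣ) : D) ^ n ∈ Subring.center D) →
      ∀ (E : Subfield D) (R : Subring E), IsEmpty (ℚ ↪o Submodule Rᵐᵒᵖ R) → R ≠ ⊤ →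
        (∀ x : E, ∃ s ∈ R, s ≠ 0 ∧ x * s ∈ R) →
        ∀ a ∈ N, ((a : Dˣ) : D) ∈ E → ∀ y ∈ E, (a : D) * y = y * (a : D) :=
  fun _ _ N hN hrad E R hn hR hQ a ha haE y hy =>
    Pool.Agent.P.MP_3fd745_al.main_kdim N hN hrad E R hn hR hQ a ha haE y hy

end Pool.Agent.Results.MP_3fd745_al.KrullDim
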