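import Pool.Agent.K.MP_3fd745_al.C5

namespace Pool.Agent.Results.MP_3fd745_al.Nakayama

theorem result :
    ∀ (D : Type) [DivisionRing D] (N : Subgroup Dˣ),
      (∃ (k : ℕ) (H : ℕ → Subgroup Dˣ),
          H 0 = N ∧ H k = ⊤ ∧
          ∀ i, i < k → H i ≤ H (i + 1) ∧ ((H i).subgroupOf (H (i + 1))).Normal) →
      (∀ x ∈ N, ∃ n : ℕ, 0 < n ∧ ((x : Dˣ) : D) ^ n ∈ Subring.center D) →
      ∀ E : Subfield D,
        (∀ S : Finset D, (∀ x ∈ S, x ∈ E) → ∃ (O : Subring D) (I : Ideal O) (s : D),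
          I ≠ ⊥ ∧ (∀ A : Submodule O D, A.FG → A ≤ I • A → A = ⊥) ∧
            s ≠ 0 ∧ ∀ x ∈ S, x * s ∈ O) →
        ∀ a ∈ N, ((a : Dˣ) : D) ∈ E → ∀ y ∈ E, (a : D) * y = y * (a : D) :=
  fun _ _ N hN hrad E hE a ha haE y hy =>
    Pool.Agent.P.MP_3fd745_al.main_rad N hN hrad E hE a ha haE y hy

end Pool.Agent.Results.MP_3fd745_al.Nakayama
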